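import Pool.Agent.N526.CP.Reg

/-!
# The systolic inequality for metrics on real projective space which are round outside a ball

Let `n = d + 1`.  Let `N` be a closed Riemannian manifold which outside a domain `M` is isometric to the
round projective space `RPⁿ` without an open ball of radius `ρ < π/2`; inside, `M` is an arbitrary
oriented Riemannian manifold with boundary a sphere (a ball with any metric if `N = RPⁿ`).  Suppose
that no curve which is noncontractible in the sense of the double cover is shorter than `π`.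
For two points `x`, `y` of the boundary of the ball the great circle through them leaves the ball, and
its part outside the ball is an arc of length `π - d(x, y)` from `y` to `-x`.  With a curve of `M` from
`x` to `y` it forms a noncontractible closed curve.  So the distances in `M` of the boundary points are
at least those of the round cap, and the cap theorem (`Pool.Agent.N526.CP`) shows that the volume of `M` is
at least the volume of the ball.
-/

set_option autoImplicit false

open MeasureTheory Metric Set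

namespace Pool.Agent.Results.MP_b75b84_gt.RoundOutsideBall

open Pool.Agent.H241R3.FV Pool.Agent.N526.CP Pool.Agent.N979.CP

/-- The admissible radii in dimension `d + 1`, `s = sin ρ`: `d = 1` and `s ≤ 0.947`; `d = 2` and
`s ≤ 0.88`; `d = 3` and `s ≤ 0.825`; `(d + 4) s⁴ ≤ 2`; `s < 1` and `d ≤ q³ + d q` with `q = √(1 - s⁴)`;
`Good2 d s`. -/
def Adm (d : ℕ) (s : ℝ) : Prop :=
  (d = 1 ∧ s ≤ 947 / 1000) ∨ (d = 2 ∧ s ≤ 22 / 25) ∨ (d = 3 ∧ s ≤ 33 / 40) ∨
    (d + 4) * s ^ 4 ≤ 2 ∨ (s < 1 ∧ (d : ℝ) ≤ √(1 - s ^ 4) ^ 3 + d * √(1 - s ^ 4)) ∨ Good2 d s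

/-- The point of the unit sphere of `ℝ^(d+1) × ℝ` at the distance `ρ` from the pole `(0, 1)` in the
direction `x`. -/
noncomputable def capPt {d : ℕ} (ρ : ℝ) (x : Sph (d + 1)) : E (d + 1) × ℝ :=
  (Real.sin ρ • (x : E (d + 1)), Real.cos ρ)

/-- The distance of two points of the unit sphere of `ℝ^(d+1) × ℝ`. -/
noncomputable def sdist {d : ℕ} (p q : E (d + 1) × ℝ) : ℝ :=
  Real.arccos (inner ℝ p.1 q.1 + p.2 * q.2)

/-- The cone over the band `{|h| ≤ cos ρ}` of the sphere, i.e. over the complement of the open balls of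
radius `ρ` around the poles. -/
def Cone (d : ℕ) (ρ : ℝ) : Set (E (d + 1) × ℝ) :=
  {p | |p.2| ≤ Real.cos ρ * √(‖p.1‖ ^ 2 + p.2 ^ 2)}

/-- A closed manifold, given by a double cover `X` (a metric space) with the deck transformation `τ`,
which is round outside `M`: the band, i.e. the unit sphere without the open balls of radius `ρ` around
the two poles, is mapped to `X` such that the shortest arcs of great circles in the band do not become
longer and `τ` corresponds to the antipodal map; and `M` is mapped to `X` without increasing distances,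
so that its boundary is the boundary of one of the two balls. -/
structure RoundOutside {d : ℕ} {M : Type} [MetricSpace M] (S : OFill (d + 1) M) (ρ : ℝ)
    (X : Type) [MetricSpace X] (τ : X → X) where
  /-- the embedding of the band -/
  band : E (d + 1) × ℝ → X
  /-- the embedding of `M` -/
  inn : M → X
  band_dist : ∀ p q : E (d + 1) × ℝ, ‖p.1‖ ^ 2 + p.2 ^ 2 = 1 → ‖q.1‖ ^ 2 + q.2 ^ 2 = 1 →
    (∀ t ∈ Icc (0 : ℝ) 1, (1 - t) • p + t • q ∈ Cone d ρ) → dist (band p) (band q) ≤ sdist p q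
  antipode : ∀ p ∈ Cone d ρ, ‖p.1‖ ^ 2 + p.2 ^ 2 = 1 → τ (band p) = band (-p)
  inn_dist : ∀ a b : M, dist (inn a) (inn b) ≤ dist a b
  glue : ∀ x : Sph (d + 1), inn (S.bd x) = band (capPt ρ x)

theorem capPt_norm {d : ℕ} (ρ : ℝ) (x : Sph (d + 1)) :
    ‖(capPt ρ x).1‖ ^ 2 + (capPt ρ x).2 ^ 2 = 1 := by
  show ‖Real.sin ρ • (x : E (d + 1))‖ ^ 2 + Real.cos ρ ^ 2 = 1
  rw [norm_smul, norm_sph, mul_one, Real.norm_eq_abs, sq_abs, Real.sin_sq_add_cos_sq]

theorem arc_mem {d : ℕ} {ρ : ℝ} (h0 : 0 < ρ) (h1 : ρ < Real.pi / 2) (x y : Sph (d + 1)) {t : ℝ}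
    (ht : t ∈ Icc (0 : ℝ) 1) : (1 - t) • capPt ρ y + t • (-capPt ρ x) ∈ Cone d ρ := by
  have hs : 0 ≤ Real.sin ρ := (Real.sin_pos_of_pos_of_lt_pi h0 (by linarith [Real.pi_pos])).le
  have hc : 0 ≤ Real.cos ρ := (Real.cos_pos_of_mem_Ioo ⟨by linarith, h1⟩).le
  have hsc := Real.sin_sq_add_cos_sq ρ
  show |(1 - t) * Real.cos ρ + t * (-Real.cos ρ)| ≤ Real.cos ρ *
    √(‖(1 - t) • Real.sin ρ • (y : E (d + 1)) + t • (-(Real.sin ρ • (x : E (d + 1))))‖ ^ 2 +
      ((1 - t) * Real.cos ρ + t * (-Real.cos ρ)) ^ 2)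
  have e1 : (1 - t) • Real.sin ρ • (y : E (d + 1)) + t • (-(Real.sin ρ • (x : E (d + 1)))) =
      Real.sin ρ • ((1 - t) • (y : E (d + 1)) - t • (x : E (d + 1))) := by
    rw [smul_sub, smul_neg, ← sub_eq_add_neg, smul_comm (Real.sin ρ) (1 - t),
      smul_comm (Real.sin ρ) t]
  have e2 : (1 - t) * Real.cos ρ + t * (-Real.cos ρ) = Real.cos ρ * (1 - 2 * t) := by ring
  rw [e1, e2, norm_smul, Real.norm_of_nonneg hs, abs_mul, abs_of_nonneg hc]
  refine mul_le_mul_of_nonneg_left ?_ hc
  apply Real.le_sqrt_of_sq_le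
  rw [sq_abs]
  set w : E (d + 1) := (1 - t) • (y : E (d + 1)) - t • (x : E (d + 1)) with hw
  have h2 : (1 - 2 * t) ^ 2 ≤ ‖w‖ ^ 2 := by
    have h3 : ‖w‖ ^ 2 = (1 - t) ^ 2 + t ^ 2 -
        2 * ((1 - t) * t * inner ℝ (y : E (d + 1)) (x : E (d + 1))) := by
      rw [hw, norm_sub_sq_real, norm_smul, norm_smul, norm_sph, norm_sph, real_inner_smul_left,
        real_inner_smul_right, mul_one, mul_one, Real.norm_eq_abs, Real.norm_eq_abs, sq_abs, sq_abs]
      ring
    have h4 : |inner ℝ (y : E (d + 1)) (x : E (d + 1))| ≤ 1 := by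
      have := abs_real_inner_le_norm (y : E (d + 1)) (x : E (d + 1))
      rwa [norm_sph, norm_sph, one_mul] at this
    have h5 := (abs_le.1 h4).2
    have h6 : 0 ≤ (1 - t) * t := mul_nonneg (by linarith [ht.2]) ht.1
    have h7 := mul_le_mul_of_nonneg_left h5 h6
    rw [h3]
    nlinarith
  have h8 : 0 ≤ Real.sin ρ ^ 2 := sq_nonneg _
  have h9 := mul_le_mul_of_nonneg_left h2 h8
  calc (1 - 2 * t) ^ 2 = Real.sin ρ ^ 2 * (1 - 2 * t) ^ 2 + (Real.cos ρ * (1 - 2 * t)) ^ 2 := by
        rw [mul_pow, ← add_mul, hsc, one_mul]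
    _ ≤ (Real.sin ρ * ‖w‖) ^ 2 + (Real.cos ρ * (1 - 2 * t)) ^ 2 := by
        rw [mul_pow (Real.sin ρ)]
        linarith

theorem cap_le {d : ℕ} {M : Type} [MetricSpace M] {S : OFill (d + 1) M} {ρ : ℝ} (h0 : 0 < ρ)
    (h1 : ρ < Real.pi / 2) {X : Type} [MetricSpace X] {τ : X → X} (N : RoundOutside S ρ X τ)
    (hsys : ∀ p : X, Real.pi ≤ dist p (τ p)) (x y : Sph (d + 1)) :
    capDist ρ x y ≤ dist (S.bd x) (S.bd y) := by
  have hmem : capPt ρ x ∈ Cone d ρ := by
    have hc : 0 ≤ Real.cos ρ := (Real.cos_pos_of_mem_Ioo ⟨by linarith, h1⟩).le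
    show |(capPt ρ x).2| ≤ Real.cos ρ * √(‖(capPt ρ x).1‖ ^ 2 + (capPt ρ x).2 ^ 2)
    rw [capPt_norm, Real.sqrt_one, mul_one]
    show |Real.cos ρ| ≤ Real.cos ρ
    rw [abs_of_nonneg hc]
  have h2 := hsys (N.band (capPt ρ x))
  rw [N.antipode _ hmem (capPt_norm ρ x), ← N.glue x] at h2
  have h3 : dist (N.band (capPt ρ y)) (N.band (-capPt ρ x)) ≤ sdist (capPt ρ y) (-capPt ρ x) := by
    refine N.band_dist _ _ (capPt_norm ρ y) ?_ fun t ht => arc_mem h0 h1 x y ht
    show ‖-(capPt ρ x).1‖ ^ 2 + (-(capPt ρ x).2) ^ 2 = 1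
    rw [norm_neg, neg_sq]
    exact capPt_norm ρ x
  have h4 : sdist (capPt ρ y) (-capPt ρ x) = Real.pi - capDist ρ x y := by
    unfold capDist
    rw [← Real.arccos_neg]
    show Real.arccos (inner ℝ (Real.sin ρ • (y : E (d + 1))) (-(Real.sin ρ • (x : E (d + 1)))) +
      Real.cos ρ * (-Real.cos ρ)) = _
    rw [inner_neg_right, real_inner_smul_left, real_inner_smul_right,
      real_inner_comm (x : E (d + 1)) (y : E (d + 1))]
    congr 1
    ring
  have h5 : dist (N.inn (S.bd x)) (N.band (-capPt ρ x)) ≤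
      dist (N.inn (S.bd x)) (N.inn (S.bd y)) + dist (N.inn (S.bd y)) (N.band (-capPt ρ x)) :=
    dist_triangle _ _ _
  have h6 := N.inn_dist (S.bd x) (S.bd y)
  rw [N.glue y] at h5 h6
  rw [h4] at h3
  linarith

/-- **The systolic inequality for metrics which are round outside a ball.**  Let `d ≥ 1`, `0 < ρ < π/2`, and let
`sin ρ` be admissible.  Let `N` be a closed Riemannian manifold of dimension `n = d + 1` (given by a double
cover `X` with deck transformation `τ`) which is isometric to the round `RPⁿ` outside an oriented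
Riemannian manifold `M` of any topology, which replaces the ball of radius `ρ`.  If the closed curves of
`N` which do not lift to closed curves of `X` have length at least `π` (that is, `d(p, τ p) ≥ π` for all
`p`), as in the round `RPⁿ`, then the volume of `N`, the sum of the volumes of `M` and of the round part,
is at least the volume `vol(Sⁿ) / 2` of the round `RPⁿ`. -/
theorem result (d : ℕ) (hd : 1 ≤ d) (ρ : ℝ) (h0 : 0 < ρ) (h1 : ρ < Real.pi / 2)
    (hs : Adm d (Real.sin ρ)) (M : Type) [MetricSpace M] [CompactSpace M] (S : OFill (d + 1) M)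
    (X : Type) [MetricSpace X] (τ : X → X) (N : RoundOutside S ρ X τ)
    (hsys : ∀ p : X, Real.pi ≤ dist p (τ p)) :
    (volume : Measure (E (d + 2))).toSphere univ / 2 ≤
      S.vol + ENNReal.ofReal
        ((sig (d + 1)).real univ * ∫ t in ρ..(Real.pi / 2), Real.sin t ^ d) := by
  rw [HEM.vol_half]
  have hc : Continuous fun t : ℝ => Real.sin t ^ d := by fun_prop
  rw [← intervalIntegral.integral_add_adjacent_intervals (hc.intervalIntegrable 0 ρ)
    (hc.intervalIntegrable ρ (Real.pi / 2)), mul_add]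
  refine ENNReal.ofReal_add_le.trans ?_
  exact add_le_add_left (Reg.cap hd h0 h1 hs M S (cap_le h0 h1 N hsys)) _

end Pool.Agent.Results.MP_b75b84_gt.RoundOutsideBall
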